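import Pool.Agent.Helper70.DK.Defs

/-!
# DK, module FRM: frames
-/

set_option autoImplicit false

namespace Pool.Agent.Helper70.DK

open Finset

theorem frm_entry {k m : ℕ} {π : Matrix (Fin k) (Fin m) ℝ} (h : Frame π) (i j : Fin k) :
    ∑ c, π i c * π j c = if i = j then 1 else 0 := by
  have h1 := congrFun (congrFun h i) j
  rw [Matrix.mul_apply, Matrix.one_apply] at h1
  exact h1

theorem frm_of_entry {k m : ℕ} {π : Matrix (Fin k) (Fin m) ℝ}
    (h : ∀ i j : Fin k, ∑ c, π i c * π j c = if i = j then 1 else 0) : Frame π := by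
  unfold Frame
  ext i j
  rw [Matrix.mul_apply, Matrix.one_apply]
  exact h i j

theorem frm_exists (k m : ℕ) (hkm : k ≤ m) : ∃ π : Matrix (Fin k) (Fin m) ℝ, Frame π := by
  refine ⟨fun i c => if c = Fin.castLE hkm i then 1 else 0, frm_of_entry fun i j => ?_⟩
  by_cases hij : i = j
  · subst hij
    simp
  · rw [if_neg hij]
    refine Finset.sum_eq_zero fun c _ => ?_
    by_cases h1 : c = Fin.castLE hkm i
    · have h2 : c ≠ Fin.castLE hkm j := by
        intro h2
        apply hij
        rw [h1] at h2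
        exact Fin.castLE_injective hkm h2
      simp only [if_neg h2, mul_zero]
    · simp only [if_neg h1, zero_mul]

theorem frm_le_one {k m : ℕ} {π : Matrix (Fin k) (Fin m) ℝ} (h : Frame π) (i : Fin k) (c : Fin m) :
    |π i c| ≤ 1 := by
  have h1 := frm_entry h i i
  rw [if_pos rfl] at h1
  have h2 : π i c * π i c ≤ ∑ c, π i c * π i c :=
    Finset.single_le_sum (f := fun c => π i c * π i c) (fun c _ => mul_self_nonneg _) (Finset.mem_univ c)
  rw [h1] at h2
  rw [abs_le]
  constructor <;> nlinarith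

theorem frm_bound {k m : ℕ} {π : Matrix (Fin k) (Fin m) ℝ} (h : Frame π) (v : Fin m → ℝ) (X : ℝ)
    (hv : ∀ c, |v c| ≤ X) (i : Fin k) : |π.mulVec v i| ≤ m * X := by
  have h1 : π.mulVec v i = ∑ c, π i c * v c := rfl
  rw [h1]
  calc |∑ c, π i c * v c| ≤ ∑ c, |π i c * v c| := Finset.abs_sum_le_sum_abs _ _
    _ ≤ ∑ _c : Fin m, X := by
      refine Finset.sum_le_sum fun c _ => ?_
      rw [abs_mul]
      calc |π i c| * |v c| ≤ 1 * X := mul_le_mul (frm_le_one h i c) (hv c) (abs_nonneg _) zero_le_one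
        _ = X := one_mul X
    _ = m * X := by simp

theorem frm_kill (k : ℕ) (y : Fin (k + 1) → ℝ) :
    ∃ Q : Matrix (Fin k) (Fin (k + 1)) ℝ, Frame Q ∧ Q.mulVec y = 0 := by
  by_cases hy : y = 0
  · obtain ⟨Q, hQ⟩ := frm_exists k (k + 1) (Nat.le_succ k)
    exact ⟨Q, hQ, by rw [hy, Matrix.mulVec_zero]⟩
  · set w : EuclideanSpace ℝ (Fin (k + 1)) := WithLp.toLp 2 y with hw
    have hw0 : w ≠ 0 := by
      intro h
      apply hy
      funext c
      have := congrArg (fun z : EuclideanSpace ℝ (Fin (k + 1)) => z c) h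
      simpa [hw] using this
    have : Fact (Module.finrank ℝ (EuclideanSpace ℝ (Fin (k + 1))) = k + 1) := ⟨by simp⟩
    let b := OrthonormalBasis.fromOrthogonalSpanSingleton (𝕜 := ℝ) k hw0
    have hinner : ∀ p q : EuclideanSpace ℝ (Fin (k + 1)), inner ℝ p q = ∑ c, p c * q c := by
      intro p q
      rw [PiLp.inner_apply]
      refine Finset.sum_congr rfl fun c _ => ?_
      simp [mul_comm]
    refine ⟨fun i c => ((b i : (Submodule.span ℝ {w})ᗮ) : EuclideanSpace ℝ (Fin (k + 1))) c,
      frm_of_entry fun i j => ?_, ?_⟩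
    · have h1 := (orthonormal_iff_ite.1 b.orthonormal) i j
      rw [Submodule.coe_inner, hinner] at h1
      exact h1
    · funext i
      have h1 := Submodule.mem_orthogonal_singleton_iff_inner_left.1 (b i).2
      rw [hinner] at h1
      show ∑ c, ((b i : (Submodule.span ℝ {w})ᗮ) : EuclideanSpace ℝ (Fin (k + 1))) c * y c = 0
      exact h1

theorem st_FRM : ST_FRM := by
  refine ⟨frm_exists, ?_, ?_, frm_kill, ?_, ?_, ?_⟩
  · intro k m π h i c
    exact frm_le_one h i c
  · intro k m π h v X hv i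
    exact frm_bound h v X hv i
  · intro j k m Q π hQ hπ
    unfold Frame at *
    rw [Matrix.transpose_mul, Matrix.mul_assoc, ← Matrix.mul_assoc π, hπ, Matrix.one_mul, hQ]
  · intro m
    unfold Frame
    rw [Matrix.transpose_one, Matrix.mul_one]
  · intro k m π h
    have h1 : (π * π.transpose).rank = k := by
      rw [h, Matrix.rank_one, Fintype.card_fin]
    have h2 := Matrix.rank_mul_le_left π π.transpose
    have h3 := π.rank_le_width
    omega

end Pool.Agent.Helper70.DK
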