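import Pool.Agent.Helper70.DK.Defs2

/-!
# DK, module SLICE: dimension of a set with many large slices
-/

set_option autoImplicit false

namespace Pool.Agent.Helper70.DK

open Finset MeasureTheory Filter Topology
open scoped ENNReal NNReal

theorem slice_pt_last {m : ℕ} (y : Fin m → ℝ) (t : ℝ) : (pt y t) (Fin.last m) = t := by
  show (Fin.snoc y t : Fin (m + 1) → ℝ) (Fin.last m) = t
  simp

theorem slice_pt_cast {m : ℕ} (y : Fin m → ℝ) (t : ℝ) (c : Fin m) : (pt y t) c.castSucc = y c := by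
  show (Fin.snoc y t : Fin (m + 1) → ℝ) c.castSucc = y c
  simp

theorem slice_coord {n : ℕ} (p q : EuclideanSpace ℝ (Fin n)) (c : Fin n) :
    edist (p c) (q c) ≤ edist p q := by
  rw [edist_dist, edist_dist]
  apply ENNReal.ofReal_le_ofReal
  rw [dist_eq_norm, dist_eq_norm]
  exact PiLp.norm_apply_le (p - q) c

theorem slice_edist {m : ℕ} (y y' : Fin m → ℝ) (t : ℝ) : edist y y' ≤ edist (pt y t) (pt y' t) := by
  rw [edist_pi_le_iff]
  intro c
  have h := slice_coord (pt y t) (pt y' t) c.castSucc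
  rw [slice_pt_cast, slice_pt_cast] at h
  exact h

/-- almost every slice of a null set of exponent `d + 1` is a null set of exponent `d` -/
theorem slice_null {m : ℕ} (E : Set (EuclideanSpace ℝ (Fin (m + 1)))) (d : ℝ) (hd : 0 < d)
    (hE : (Measure.hausdorffMeasure (d + 1) : Measure (EuclideanSpace ℝ (Fin (m + 1)))) E = 0) :
    ∀ᵐ h : ℝ, (Measure.hausdorffMeasure d : Measure (Fin m → ℝ)) {y | pt y h ∈ E} = 0 := by
  -- coverings
  have hcov : ∀ n : ℕ, ∃ t : ℕ → Set (EuclideanSpace ℝ (Fin (m + 1))), E ⊆ ⋃ j, t j ∧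
      (∀ j, Metric.ediam (t j) ≤ (2⁻¹ : ℝ≥0∞) ^ n) ∧
      ∑' j, (⨆ _ : (t j).Nonempty, Metric.ediam (t j) ^ (d + 1)) < (2⁻¹ : ℝ≥0∞) ^ n := by
    intro n
    rw [Measure.hausdorffMeasure_apply] at hE
    have hpos : (0 : ℝ≥0∞) < (2⁻¹ : ℝ≥0∞) ^ n := ENNReal.pow_pos (by simp) n
    have h1 : (⨅ (t : ℕ → Set (EuclideanSpace ℝ (Fin (m + 1)))) (_ : E ⊆ ⋃ n, t n)
        (_ : ∀ k, Metric.ediam (t k) ≤ (2⁻¹ : ℝ≥0∞) ^ n),
          ∑' n, ⨆ _ : (t n).Nonempty, Metric.ediam (t n) ^ (d + 1)) < (2⁻¹ : ℝ≥0∞) ^ n := by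
      refine lt_of_le_of_lt ?_ hpos
      rw [← hE]
      exact le_iSup₂_of_le ((2⁻¹ : ℝ≥0∞) ^ n) hpos le_rfl
    obtain ⟨t, h2⟩ := iInf_lt_iff.1 h1
    obtain ⟨h3, h4⟩ := iInf_lt_iff.1 h2
    obtain ⟨h5, h6⟩ := iInf_lt_iff.1 h4
    exact ⟨t, h3, h5, h6⟩
  choose t ht1 ht2 ht3 using hcov
  set F : ℕ → ℕ → Set ℝ := fun n j =>
    closure ((fun p : EuclideanSpace ℝ (Fin (m + 1)) => p (Fin.last m)) '' t n j) with hF
  have hFm : ∀ n j, MeasurableSet (F n j) := fun n j => isClosed_closure.measurableSet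
  have hFv : ∀ n j, volume (F n j) ≤ Metric.ediam (t n j) := by
    intro n j
    refine (Real.volume_le_diam _).trans ?_
    simp only [hF]
    rw [Metric.ediam_closure]
    apply Metric.ediam_le
    rintro _ ⟨p, hp, rfl⟩ _ ⟨q, hq, rfl⟩
    exact (slice_coord p q (Fin.last m)).trans (Metric.edist_le_ediam_of_mem hp hq)
  set g : ℕ → ℝ → ℝ≥0∞ := fun n h =>
    ∑' j, (F n j).indicator (fun _ => Metric.ediam (t n j) ^ d) h with hg
  have hgm : ∀ n, Measurable (g n) := fun n =>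
    Measurable.tsum fun j => measurable_const.indicator (hFm n j)
  have hgi : ∀ n, ∫⁻ h, g n h ≤ (2⁻¹ : ℝ≥0∞) ^ n := by
    intro n
    simp only [hg]
    rw [lintegral_tsum (fun j => (measurable_const.indicator (hFm n j)).aemeasurable)]
    refine le_trans (ENNReal.tsum_le_tsum fun j => ?_) (ht3 n).le
    rw [lintegral_indicator_const (hFm n j)]
    by_cases hne : (t n j).Nonempty
    · rw [ciSup_pos hne, ENNReal.rpow_add_of_nonneg _ _ hd.le zero_le_one, ENNReal.rpow_one]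
      exact mul_le_mul' le_rfl (hFv n j)
    · have he : t n j = ∅ := Set.not_nonempty_iff_eq_empty.1 hne
      have : F n j = ∅ := by
        simp only [hF, he]
        simp
      rw [this]
      simp
  have hsum : ∫⁻ h, ∑' n, g n h ≠ ⊤ := by
    rw [lintegral_tsum (fun n => (hgm n).aemeasurable)]
    refine ne_top_of_le_ne_top ?_ (ENNReal.tsum_le_tsum hgi)
    rw [ENNReal.tsum_geometric]
    simp
  have hae := ae_lt_top (Measurable.tsum hgm) hsum
  filter_upwards [hae] with h hh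
  have htend : Tendsto (fun n => g n h) atTop (𝓝 0) :=
    ENNReal.tendsto_atTop_zero_of_tsum_ne_top hh.ne
  have hr : Tendsto (fun n : ℕ => (2⁻¹ : ℝ≥0∞) ^ n) atTop (𝓝 0) :=
    ENNReal.tendsto_pow_atTop_nhds_zero_of_lt_one (by simp)
  have hdm : ∀ n j, Metric.ediam {y : Fin m → ℝ | pt y h ∈ t n j} ≤ Metric.ediam (t n j) := by
    intro n j
    apply Metric.ediam_le
    intro y hy y' hy'
    exact (slice_edist y y' h).trans (Metric.edist_le_ediam_of_mem hy hy')
  have hle := Measure.hausdorffMeasure_le_liminf_tsum d {y : Fin m → ℝ | pt y h ∈ E}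
    (fun n : ℕ => (2⁻¹ : ℝ≥0∞) ^ n) hr (fun n j => {y : Fin m → ℝ | pt y h ∈ t n j})
    (Eventually.of_forall fun n j => (hdm n j).trans (ht2 n j))
    (Eventually.of_forall fun n => by
      intro y hy
      obtain ⟨j, hj⟩ := Set.mem_iUnion.1 (ht1 n hy)
      exact Set.mem_iUnion.2 ⟨j, hj⟩)
  have hle2 : liminf (fun n => ∑' j, Metric.ediam {y : Fin m → ℝ | pt y h ∈ t n j} ^ d) atTop ≤
      liminf (fun n => g n h) atTop := by
    refine liminf_le_liminf (Eventually.of_forall fun n => ENNReal.tsum_le_tsum fun j => ?_)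
    by_cases hne : ({y : Fin m → ℝ | pt y h ∈ t n j}).Nonempty
    · obtain ⟨y, hy⟩ := hne
      have hmem : h ∈ F n j := by
        simp only [hF]
        exact subset_closure ⟨pt y h, hy, slice_pt_last y h⟩
      rw [Set.indicator_of_mem hmem]
      exact ENNReal.rpow_le_rpow (hdm n j) hd.le
    · have he : {y : Fin m → ℝ | pt y h ∈ t n j} = ∅ := Set.not_nonempty_iff_eq_empty.1 hne
      rw [he, Metric.ediam_empty, ENNReal.zero_rpow_of_pos hd]
      exact bot_le
  rw [htend.liminf_eq] at hle2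
  exact le_antisymm (hle.trans hle2) bot_le

theorem st_SLICE : ST_SLICE := by
  intro m E T s hs hT hdim
  by_contra hcon
  push Not at hcon
  obtain ⟨q, hq1, hq2⟩ := exists_between hcon
  have hqt : q ≠ ⊤ := ne_top_of_lt hq2
  set d : ℝ := max (q.toReal - 1) (s / 2) with hd
  have hd0 : 0 < d := lt_of_lt_of_le (by linarith) (le_max_right _ _)
  have hqs : q.toReal < s + 1 := by
    have h1 := (ENNReal.toReal_lt_toReal hqt ENNReal.ofReal_ne_top).2 hq2
    rwa [ENNReal.toReal_ofReal (by linarith)] at h1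
  have hds : d < s := max_lt (by linarith) (by linarith)
  have hqd : q.toReal ≤ d + 1 := by
    have := le_max_left (q.toReal - 1) (s / 2)
    linarith
  set d' : ℝ≥0 := ⟨d, hd0.le⟩ with hd'
  have hco : ((d' + 1 : ℝ≥0) : ℝ) = d + 1 := by
    rw [NNReal.coe_add, NNReal.coe_one]
    rfl
  have hE : (Measure.hausdorffMeasure (d + 1) : Measure (EuclideanSpace ℝ (Fin (m + 1)))) E = 0 := by
    have h1 : dimH E < ((d' + 1 : ℝ≥0) : ℝ≥0∞) := by
      refine lt_of_lt_of_le hq1 ?_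
      rw [← ENNReal.ofReal_toReal hqt]
      rw [ENNReal.ofReal_le_iff_le_toReal (ENNReal.coe_ne_top), ENNReal.coe_toReal, hco]
      exact hqd
    have h2 := hausdorffMeasure_of_dimH_lt h1
    rw [hco] at h2
    exact h2
  have hae := slice_null E d hd0 hE
  apply hT
  rw [ae_iff] at hae
  refine measure_mono_null ?_ hae
  intro h hh
  show ¬ _
  intro h0
  have h1 : (Measure.hausdorffMeasure (d' : ℝ) : Measure (Fin m → ℝ)) {y | pt y h ∈ E} ≠ ⊤ := by
    have : ((d' : ℝ)) = d := rfl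
    rw [this, h0]
    simp
  have h2 := dimH_le_of_hausdorffMeasure_ne_top h1
  have h3 := (hdim h hh).trans h2
  have h4 : ENNReal.ofReal s ≤ ENNReal.ofReal d := by
    refine h3.trans (le_of_eq ?_)
    rw [ENNReal.ofReal, Real.toNNReal_of_nonneg hd0.le]
    rfl
  rw [ENNReal.ofReal_le_ofReal_iff hd0.le] at h4
  linarith

end Pool.Agent.Helper70.DK
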